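import Pool.Agent.H26.ES.Targets
import Pool.Agent.H60.LVP.RT

/-!
# Power of the logarithm, star part: row TPM (transport without condition)
-/

set_option autoImplicit false

open Finset MeasureTheory

namespace Pool.Agent.H76.ES

open Pool.Agent.H24.CL Pool.Agent.H24.LV Pool.Agent.H26.ES Pool.Agent.H60.LVP

theorem pf_TPM (hCO : L_CO) (hAI : L_AI) : T_TPM := by
  classical
  intro k q A W m θ hk hq hA hW hm hθ hC hden
  have hq0 : (0 : ℝ) < q := by exact_mod_cast hq
  have hqK : (0 : ℝ) < (q : ℝ) ^ (KN k) := by positivity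
  have hphi : ∀ b, Measurable (phi q b : X k → X k) := fun b => (hMP k q b hq).1.measurable
  obtain ⟨G, hG⟩ : ∃ G : X k → ℝ, G = W.indicator fun _ => (1 : ℝ) := ⟨_, rfl⟩
  have hGm : Measurable G := by rw [hG]; exact measurable_const.indicator hW
  have hG0 : ∀ v, 0 ≤ G v := by
    intro v; rw [hG]; exact Set.indicator_nonneg (fun _ _ => zero_le_one) v
  have hG1 : ∀ v, G v ≤ 1 := by
    intro v; rw [hG]
    by_cases h : v ∈ W
    · rw [Set.indicator_of_mem h]
    · rw [Set.indicator_of_notMem h]; exact zero_le_one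
  have hGint : ∫ v, G v = volume.real W := by
    rw [hG, integral_indicator_const _ hW, smul_eq_mul, mul_one]
  have hhd : ∀ a : X k, hd q W a = (1 / (q : ℝ)) * ∑ b ∈ range q, G (phi q b a) := by
    intro a
    unfold hd pos
    rw [Finset.card_filter]
    push_cast
    rw [one_div, inv_mul_eq_div]
    congr 1
    refine Finset.sum_congr rfl fun b _ => ?_
    rw [hG]
    by_cases h : phi q b a ∈ W
    · rw [Set.indicator_of_mem h, if_pos h]
    · rw [Set.indicator_of_notMem h, if_neg h]
  have hint : ∀ b : ℕ, IntegrableOn (fun a : X k => G (phi q b a)) A := by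
    intro b
    apply Integrable.integrableOn
    apply Integrable.of_bound (hGm.comp (hphi b)).aestronglyMeasurable 1
    refine Filter.Eventually.of_forall fun a => ?_
    show ‖G (phi q b a)‖ ≤ 1
    rw [Real.norm_of_nonneg (hG0 _)]
    exact hG1 _
  have h1 : θ * volume.real A ≤ ∫ a in A, (1 / (q : ℝ)) * ∑ b ∈ range q, G (phi q b a) := by
    have h2 : ∫ a in A, (θ : ℝ) = volume.real A * θ := by
      rw [setIntegral_const, smul_eq_mul]
    rw [mul_comm, ← h2]
    apply setIntegral_mono_on (integrable_const _).integrableOn _ hA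
    · intro a ha
      rw [← hhd a]
      exact hden a ha
    · apply Integrable.const_mul
      exact integrable_finset_sum _ fun b _ => hint b
  rw [integral_const_mul, integral_finset_sum _ fun b _ => hint b] at h1
  have h3 : ∑ b ∈ range q, ∫ a in A, G (phi q b a) ≤
      ∑ b ∈ range q, m / (q : ℝ) ^ (KN k) * volume.real W := by
    refine Finset.sum_le_sum fun b _ => ?_
    rw [← hGint]
    exact avg_fun hCO hAI hq b A hA m hC G hGm 1 hG0 hG1
  rw [Finset.sum_const, Finset.card_range, nsmul_eq_mul] at h3
  have h4 : θ * volume.real A ≤ m / (q : ℝ) ^ (KN k) * volume.real W := by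
    refine h1.trans ?_
    rw [one_div, inv_mul_eq_div, div_le_iff₀ hq0]
    linarith
  have h5 : m / (q : ℝ) ^ (KN k) * volume.real W = m * volume.real W / (q : ℝ) ^ (KN k) := by
    ring
  rw [h5, le_div_iff₀ hqK] at h4
  have h6 : 1 / θ * m * volume.real W = m * volume.real W / θ := by ring
  rw [h6, le_div_iff₀ hθ]
  calc (q : ℝ) ^ (KN k) * volume.real A * θ = θ * volume.real A * (q : ℝ) ^ (KN k) := by ring
    _ ≤ m * volume.real W := h4

end Pool.Agent.H76.ES
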